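import Mathlib

/-!
# Monotone swap theorem: definitions (helper64)

`w I J` is `(-1) ^ |I|` times the value of a harmonic function at `(S - I) ∪ J`.
-/

set_option autoImplicit false

open Finset

namespace Pool.Agent.H64Swap

/-- The relations of a harmonic function in the coordinates `w I J`. -/
structure Rel {r : ℕ} (w : Finset (Fin r) → Finset (Fin r) → ℚ) : Prop where
  lvl : ∀ I J, I.card ≠ J.card → w I J = 0
  rs : ∀ I J, I.card = J.card + 1 → ∑ i ∈ I, w (I.erase i) J = ∑ j ∈ Jᶜ, w I (insert j J)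
  rt : ∀ I J, J.card = I.card + 1 → ∑ j ∈ J, w I (J.erase j) = ∑ i ∈ Iᶜ, w (insert i I) J
  sym : ∀ I J, w Iᶜ Jᶜ = w I J

/-- `R` is closed under the allowed steps: up, horizontal in `S`, and, at the levels `m` and
`m + 1` only, horizontal in `T` and down. -/
structure Closed {r : ℕ} (w : Finset (Fin r) → Finset (Fin r) → ℚ) (m : ℕ)
    (R : Finset (Fin r) → Finset (Fin r) → Prop) : Prop where
  nz : ∀ I J, R I J → w I J ≠ 0
  up : ∀ I J i j, R I J → i ∉ I → j ∉ J → w (insert i I) (insert j J) ≠ 0 →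
    R (insert i I) (insert j J)
  hs : ∀ I J i i', R I J → i' ∈ I → i ∉ I → w (insert i (I.erase i')) J ≠ 0 →
    R (insert i (I.erase i')) J
  ht : ∀ I J j j', R I J → m ≤ I.card → I.card ≤ m + 1 → j' ∈ J → j ∉ J →
    w I (insert j (J.erase j')) ≠ 0 → R I (insert j (J.erase j'))
  down : ∀ I J i j, R I J → I.card = m + 1 → i ∈ I → j ∈ J → w (I.erase i) (J.erase j) ≠ 0 →
    R (I.erase i) (J.erase j)

end Pool.Agent.H64Swap
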