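import Mathlib

/-!
# The norm identity of the Boolean lattice (helper64)
-/

set_option autoImplicit false

open Finset

namespace Pool.Agent.H64Swap

theorem reindex {r : ℕ} (f : Finset (Fin r) → Fin r → ℚ) :
    ∑ I, ∑ i ∈ I, f I i = ∑ X : Finset (Fin r), ∑ i ∈ Xᶜ, f (insert i X) i := by
  rw [Finset.sum_sigma', Finset.sum_sigma']
  refine Finset.sum_bij' (fun p _ => ⟨p.1.erase p.2, p.2⟩) (fun p _ => ⟨insert p.2 p.1, p.2⟩)
    ?_ ?_ ?_ ?_ ?_
  · rintro ⟨I, i⟩ h
    simp
  · rintro ⟨I, i⟩ h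
    simp
  · rintro ⟨I, i⟩ h
    simp only [mem_sigma, mem_univ, true_and] at h
    simp [Finset.insert_erase h]
  · rintro ⟨I, i⟩ h
    simp only [mem_sigma, mem_univ, mem_compl, true_and] at h
    simp [Finset.erase_insert h]
  · rintro ⟨I, i⟩ h
    simp only [mem_sigma, mem_univ, true_and] at h
    simp [Finset.insert_erase h]

theorem norm_identity {r : ℕ} (u : Finset (Fin r) → ℚ) :
    ∑ I, (∑ i ∈ I, u (I.erase i)) ^ 2 =
      ∑ I, (∑ i ∈ Iᶜ, u (insert i I)) ^ 2 + ∑ I, ((r : ℚ) - 2 * I.card) * u I ^ 2 := by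
  have h1 : ∑ I, (∑ i ∈ I, u (I.erase i)) ^ 2 =
      ∑ X : Finset (Fin r), ∑ i ∈ Xᶜ, (u X * u X + ∑ i' ∈ X, u X * u (insert i (X.erase i'))) := by
    have e : ∑ I, (∑ i ∈ I, u (I.erase i)) ^ 2 =
        ∑ I : Finset (Fin r), ∑ i ∈ I, u (I.erase i) * ∑ i' ∈ I, u (I.erase i') := by
      refine Finset.sum_congr rfl fun I _ => ?_
      rw [sq, Finset.sum_mul]
    rw [e, reindex (fun I i => u (I.erase i) * ∑ i' ∈ I, u (I.erase i'))]
    refine Finset.sum_congr rfl fun X _ => Finset.sum_congr rfl fun i hi => ?_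
    rw [mem_compl] at hi
    rw [Finset.sum_insert hi, Finset.erase_insert hi, mul_add, Finset.mul_sum]
    congr 1
    refine Finset.sum_congr rfl fun i' hi' => ?_
    rw [Finset.erase_insert_of_ne]
    rintro rfl
    exact hi hi'
  have h2 : ∑ I, (∑ i ∈ Iᶜ, u (insert i I)) ^ 2 =
      ∑ X : Finset (Fin r), ∑ i' ∈ X, (u X * u X + ∑ i ∈ Xᶜ, u X * u (insert i (X.erase i'))) := by
    have e : ∑ I, (∑ i ∈ Iᶜ, u (insert i I)) ^ 2 =
        ∑ I : Finset (Fin r), ∑ i' ∈ Iᶜ, (fun (X : Finset (Fin r)) i' =>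
          u X * ∑ i ∈ (X.erase i')ᶜ, u (insert i (X.erase i'))) (insert i' I) i' := by
      refine Finset.sum_congr rfl fun I _ => ?_
      rw [sq, Finset.sum_mul]
      refine Finset.sum_congr rfl fun i' hi' => ?_
      rw [mem_compl] at hi'
      simp only [Finset.erase_insert hi']
    rw [e, ← reindex (fun (X : Finset (Fin r)) i' =>
          u X * ∑ i ∈ (X.erase i')ᶜ, u (insert i (X.erase i')))]
    refine Finset.sum_congr rfl fun X _ => Finset.sum_congr rfl fun i' hi' => ?_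
    have e2 : (X.erase i')ᶜ = insert i' Xᶜ := by
      ext a
      simp only [mem_compl, mem_erase, mem_insert]
      tauto
    simp only [e2]
    rw [Finset.sum_insert (by simpa using hi'), Finset.insert_erase hi', mul_add, Finset.mul_sum]
  rw [h1, h2, ← Finset.sum_add_distrib]
  refine Finset.sum_congr rfl fun X _ => ?_
  rw [Finset.sum_add_distrib, Finset.sum_add_distrib, Finset.sum_const, Finset.sum_const,
    Finset.card_compl, Fintype.card_fin, Finset.sum_comm]
  have hX : X.card ≤ r := by simpa using Finset.card_le_univ X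
  rw [nsmul_eq_mul, nsmul_eq_mul, Nat.cast_sub hX]
  ring

end Pool.Agent.H64Swap
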