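import Pool.Agent.H64Swap.Defs
import Pool.Agent.H64Swap.Norm

/-!
# The climb (helper64, after helper79)

`cut w R` is the restriction of `w` to the set `R`. From every member `(I, J)` of `R` at a level
`k` with `2 k < r` one climbs, for the fixed `J`, to a member `(I', J + j)`.
-/

set_option autoImplicit false

open Finset

namespace Pool.Agent.H64Swap

open Classical in
/-- The restriction of `w` to `R`. -/
noncomputable def cut {r : ℕ} (w : Finset (Fin r) → Finset (Fin r) → ℚ)
    (R : Finset (Fin r) → Finset (Fin r) → Prop) (I J : Finset (Fin r)) : ℚ :=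
  if R I J then w I J else 0

section

variable {r m : ℕ} {w : Finset (Fin r) → Finset (Fin r) → ℚ}
  {R : Finset (Fin r) → Finset (Fin r) → Prop}

theorem cut_neg {I J : Finset (Fin r)} (h : ¬ R I J) : cut w R I J = 0 := by
  simp [cut, h]

theorem cut_pos {I J : Finset (Fin r)} (h : R I J) : cut w R I J = w I J := by
  simp [cut, h]

theorem cut_eq {I J : Finset (Fin r)} (h : w I J ≠ 0 → R I J) : cut w R I J = w I J := by
  by_cases hw : w I J = 0
  · by_cases hR : R I J
    · exact cut_pos hR
    · rw [cut_neg hR, hw]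
  · exact cut_pos (h hw)

theorem of_cut_ne {I J : Finset (Fin r)} (h : cut w R I J ≠ 0) : R I J := by
  by_contra hn
  exact h (cut_neg hn)

theorem cut_lvl (hw : Rel w) {I J : Finset (Fin r)} (h : I.card ≠ J.card) :
    cut w R I J = 0 := by
  by_cases hR : R I J
  · rw [cut_pos hR, hw.lvl I J h]
  · exact cut_neg hR

/-- a lower node of an `S`-type half node is in `R`: both sums are complete -/
theorem lowS_full (hR : Closed w m R) {I J : Finset (Fin r)}
    (h : ∃ i ∈ I, R (I.erase i) J) :
    ∑ i ∈ I, cut w R (I.erase i) J = ∑ i ∈ I, w (I.erase i) J ∧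
    ∑ j ∈ Jᶜ, cut w R I (insert j J) = ∑ j ∈ Jᶜ, w I (insert j J) := by
  obtain ⟨i, hi, hRi⟩ := h
  constructor
  · refine Finset.sum_congr rfl fun i' hi' => cut_eq fun hne => ?_
    by_cases e : i' = i
    · rw [e]; exact hRi
    · have e2 : insert i ((I.erase i).erase i') = I.erase i' := by
        ext a
        simp only [mem_insert, mem_erase]
        constructor
        · rintro (rfl | ⟨h1, h2, h3⟩)
          · exact ⟨fun h => e h.symm, hi⟩
          · exact ⟨h1, h3⟩
        · rintro ⟨h1, h2⟩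
          by_cases h3 : a = i
          · exact Or.inl h3
          · exact Or.inr ⟨h1, h3, h2⟩
      have := hR.hs (I.erase i) J i i' hRi (mem_erase.2 ⟨e, hi'⟩) (notMem_erase i I)
      rw [e2] at this
      exact this hne
  · refine Finset.sum_congr rfl fun j hj => cut_eq fun hne => ?_
    have := hR.up (I.erase i) J i j hRi (notMem_erase i I) (by simpa using hj)
    rw [insert_erase hi] at this
    exact this hne

theorem lowS_none {I J : Finset (Fin r)} (h : ¬ ∃ i ∈ I, R (I.erase i) J) :
    ∑ i ∈ I, cut w R (I.erase i) J = 0 :=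
  Finset.sum_eq_zero fun i hi => cut_neg fun hRi => h ⟨i, hi, hRi⟩

theorem uppS_full (hR : Closed w m R) {I J : Finset (Fin r)} (h1 : m ≤ I.card)
    (h2 : I.card ≤ m + 1) (h : ∃ j ∈ Jᶜ, R I (insert j J)) :
    ∑ j ∈ Jᶜ, cut w R I (insert j J) = ∑ j ∈ Jᶜ, w I (insert j J) := by
  obtain ⟨j, hj, hRj⟩ := h
  rw [mem_compl] at hj
  refine Finset.sum_congr rfl fun j' hj' => cut_eq fun hne => ?_
  rw [mem_compl] at hj'
  by_cases e : j' = j
  · rw [e]; exact hRj
  · have := hR.ht I (insert j J) j' j hRj h1 h2 (mem_insert_self j J)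
      (by simp only [mem_insert, not_or]; exact ⟨e, hj'⟩)
    rw [erase_insert hj] at this
    exact this hne

theorem uppS_none {I J : Finset (Fin r)} (h : ¬ ∃ j ∈ Jᶜ, R I (insert j J)) :
    ∑ j ∈ Jᶜ, cut w R I (insert j J) = 0 :=
  Finset.sum_eq_zero fun i hi => cut_neg fun hRi => h ⟨i, hi, hRi⟩

/-- `T`-type half nodes -/
theorem lowT_full (hR : Closed w m R) {I J : Finset (Fin r)} (h1 : m ≤ I.card)
    (h2 : I.card ≤ m + 1) (h : ∃ j ∈ J, R I (J.erase j)) :
    ∑ j ∈ J, cut w R I (J.erase j) = ∑ j ∈ J, w I (J.erase j) ∧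
    ∑ i ∈ Iᶜ, cut w R (insert i I) J = ∑ i ∈ Iᶜ, w (insert i I) J := by
  obtain ⟨j, hj, hRj⟩ := h
  constructor
  · refine Finset.sum_congr rfl fun j' hj' => cut_eq fun hne => ?_
    by_cases e : j' = j
    · rw [e]; exact hRj
    · have e2 : insert j ((J.erase j).erase j') = J.erase j' := by
        ext a
        simp only [mem_insert, mem_erase]
        constructor
        · rintro (rfl | ⟨h1, h2, h3⟩)
          · exact ⟨fun h => e h.symm, hj⟩
          · exact ⟨h1, h3⟩
        · rintro ⟨h1, h2⟩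
          by_cases h3 : a = j
          · exact Or.inl h3
          · exact Or.inr ⟨h1, h3, h2⟩
      have := hR.ht I (J.erase j) j j' hRj h1 h2 (mem_erase.2 ⟨e, hj'⟩) (notMem_erase j J)
      rw [e2] at this
      exact this hne
  · refine Finset.sum_congr rfl fun i hi => cut_eq fun hne => ?_
    have := hR.up I (J.erase j) i j hRj (by simpa using hi) (notMem_erase j J)
    rw [insert_erase hj] at this
    exact this hne

theorem lowT_none {I J : Finset (Fin r)} (h : ¬ ∃ j ∈ J, R I (J.erase j)) :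
    ∑ j ∈ J, cut w R I (J.erase j) = 0 :=
  Finset.sum_eq_zero fun i hi => cut_neg fun hRi => h ⟨i, hi, hRi⟩

theorem uppT_full (hR : Closed w m R) {I J : Finset (Fin r)}
    (h : ∃ i ∈ Iᶜ, R (insert i I) J) :
    ∑ i ∈ Iᶜ, cut w R (insert i I) J = ∑ i ∈ Iᶜ, w (insert i I) J := by
  obtain ⟨i, hi, hRi⟩ := h
  rw [mem_compl] at hi
  refine Finset.sum_congr rfl fun i' hi' => cut_eq fun hne => ?_
  rw [mem_compl] at hi'
  by_cases e : i' = i
  · rw [e]; exact hRi
  · have := hR.hs (insert i I) J i' i hRi (mem_insert_self i I)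
      (by simp only [mem_insert, not_or]; exact ⟨e, hi'⟩)
    rw [erase_insert hi] at this
    exact this hne

theorem uppT_none {I J : Finset (Fin r)} (h : ¬ ∃ i ∈ Iᶜ, R (insert i I) J) :
    ∑ i ∈ Iᶜ, cut w R (insert i I) J = 0 :=
  Finset.sum_eq_zero fun i hi => cut_neg fun hRi => h ⟨i, hi, hRi⟩

/-- one level up, `J` grows by one element -/
theorem climb (hw : Rel w) (hR : Closed w m R) {I J : Finset (Fin r)} (h : R I J)
    (hJ : 2 * J.card < r) : ∃ I' j, j ∉ J ∧ R I' (insert j J) := by
  by_contra hn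
  push Not at hn
  have hnorm := norm_identity (fun I => cut w R I J)
  have hzero : ∀ I' : Finset (Fin r), ∑ i ∈ I', cut w R (I'.erase i) J = 0 := by
    intro I'
    by_cases h1 : ∃ i ∈ I', R (I'.erase i) J
    · obtain ⟨a, b⟩ := lowS_full hR h1
      obtain ⟨i, hi, hRi⟩ := h1
      have hc : I'.card = J.card + 1 := by
        have h2 : (I'.erase i).card = J.card := by
          by_contra h3
          exact hR.nz _ _ hRi (hw.lvl _ _ h3)
        rw [card_erase_of_mem hi] at h2
        have : 0 < I'.card := card_pos.2 ⟨i, hi⟩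
        omega
      rw [a, hw.rs I' J hc, ← b]
      refine Finset.sum_eq_zero fun j hj => cut_neg ?_
      rw [mem_compl] at hj
      exact hn I' j hj
    · exact lowS_none h1
  have hl : ∑ I' : Finset (Fin r), (∑ i ∈ I', cut w R (I'.erase i) J) ^ 2 = 0 :=
    Finset.sum_eq_zero fun I' _ => by rw [hzero I']; simp
  rw [hl] at hnorm
  have hu : 0 ≤ ∑ I' : Finset (Fin r), (∑ i ∈ I'ᶜ, cut w R (insert i I') J) ^ 2 :=
    Finset.sum_nonneg fun I' _ => sq_nonneg _
  have hp : 0 < ∑ I' : Finset (Fin r), ((r : ℚ) - 2 * I'.card) * cut w R I' J ^ 2 := by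
    have hr : (0 : ℚ) < (r : ℚ) - 2 * J.card := by
      have : ((2 * J.card : ℕ) : ℚ) < r := by exact_mod_cast hJ
      push_cast at this
      linarith
    refine Finset.sum_pos' (fun I' _ => ?_) ⟨I, mem_univ _, ?_⟩
    · by_cases h0 : cut w R I' J = 0
      · rw [h0]; simp
      · have hI : I'.card = J.card := by
          by_contra h3
          exact h0 (cut_lvl hw h3)
        rw [hI]
        exact mul_nonneg hr.le (sq_nonneg _)
    · have hI : I.card = J.card := by
        by_contra h3
        exact hR.nz _ _ h (hw.lvl _ _ h3)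
      have hne : cut w R I J ≠ 0 := by rw [cut_pos h]; exact hR.nz _ _ h
      rw [hI]
      exact mul_pos hr (by positivity)
  linarith

end

/-- `R` reaches the level `m`. -/
theorem reach {r m : ℕ} (hr : r = 2 * m + 1) {w : Finset (Fin r) → Finset (Fin r) → ℚ}
    (hw : Rel w) {R : Finset (Fin r) → Finset (Fin r) → Prop} (hR : Closed w m R)
    (h0 : R ∅ ∅) : ∃ I J, I.card = m ∧ J.card = m ∧ R I J := by
  have key : ∀ k, k ≤ m → ∃ I J, J.card = k ∧ R I J := by
    intro k
    induction k with
    | zero => exact fun _ => ⟨∅, ∅, rfl, h0⟩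
    | succ k ih =>
      intro hk
      obtain ⟨I, J, hJ, h⟩ := ih (by omega)
      obtain ⟨I', j, hj, h'⟩ := climb hw hR h (by omega)
      exact ⟨I', insert j J, by rw [card_insert_of_notMem hj, hJ], h'⟩
  obtain ⟨I, J, hJ, h⟩ := key m le_rfl
  refine ⟨I, J, ?_, hJ, h⟩
  rw [← hJ]
  by_contra hn
  exact hR.nz _ _ h (hw.lvl _ _ hn)

end Pool.Agent.H64Swap
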