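import Pool.Agent.H64Swap.Path

/-!
# All ranks and all fields of characteristic zero (helper39)

From odd rank and rational values (`path_odd`) to all ranks (`path_all`): for even `r` a singlet is
added, and a `ℚ`-linear functional of the field is applied.
-/

set_option autoImplicit false

open Finset

namespace Pool.Agent.H64Swap

section

variable {r : ℕ}

/-- The embedding of the ground set. -/
def emb (x : Fin r ⊕ Fin r) : Fin (r + 1) ⊕ Fin (r + 1) :=
  Sum.map Fin.castSucc Fin.castSucc x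

/-- The additional element of the first half. -/
def ec : Fin (r + 1) ⊕ Fin (r + 1) := Sum.inl (Fin.last r)

/-- The additional element of the second half. -/
def ed : Fin (r + 1) ⊕ Fin (r + 1) := Sum.inr (Fin.last r)

/-- The trace on the old ground set. -/
def pre (A : Finset (Fin (r + 1) ⊕ Fin (r + 1))) : Finset (Fin r ⊕ Fin r) :=
  univ.filter fun x => emb x ∈ A

theorem mem_pre {A : Finset (Fin (r + 1) ⊕ Fin (r + 1))} {x : Fin r ⊕ Fin r} :
    x ∈ pre A ↔ emb x ∈ A := by simp [pre]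

theorem emb_inj {x y : Fin r ⊕ Fin r} : emb x = emb y ↔ x = y := by
  constructor
  · intro h
    rcases x with x | x <;> rcases y with y | y <;> simp_all [emb]
  · rintro rfl; rfl

theorem emb_ne_ec (x : Fin r ⊕ Fin r) : emb x ≠ ec := by
  rcases x with x | x <;> simp [emb, ec, Fin.castSucc_ne_last]

theorem emb_ne_ed (x : Fin r ⊕ Fin r) : emb x ≠ ed := by
  rcases x with x | x <;> simp [emb, ed, Fin.castSucc_ne_last]

theorem ec_ne_ed : (ec : Fin (r + 1) ⊕ Fin (r + 1)) ≠ ed := by simp [ec, ed]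

theorem cases_emb (y : Fin (r + 1) ⊕ Fin (r + 1)) : y = ec ∨ y = ed ∨ ∃ x, y = emb x := by
  rcases y with y | y
  · rcases Fin.eq_castSucc_or_eq_last y with ⟨z, rfl⟩ | rfl
    · exact Or.inr (Or.inr ⟨Sum.inl z, rfl⟩)
    · exact Or.inl rfl
  · rcases Fin.eq_castSucc_or_eq_last y with ⟨z, rfl⟩ | rfl
    · exact Or.inr (Or.inr ⟨Sum.inr z, rfl⟩)
    · exact Or.inr (Or.inl rfl)

theorem pre_compl (A : Finset (Fin (r + 1) ⊕ Fin (r + 1))) : pre Aᶜ = (pre A)ᶜ := by
  ext x; simp [mem_pre]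

theorem pre_insert_emb (x : Fin r ⊕ Fin r) (A : Finset (Fin (r + 1) ⊕ Fin (r + 1))) :
    pre (insert (emb x) A) = insert x (pre A) := by
  ext y; simp [mem_pre, emb_inj]

theorem pre_erase_emb (x : Fin r ⊕ Fin r) (A : Finset (Fin (r + 1) ⊕ Fin (r + 1))) :
    pre (A.erase (emb x)) = (pre A).erase x := by
  ext y; simp [mem_pre, emb_inj]

theorem pre_insert_ec (A : Finset (Fin (r + 1) ⊕ Fin (r + 1))) :
    pre (insert ec A) = pre A := by
  ext y; simp [mem_pre, emb_ne_ec]

theorem pre_insert_ed (A : Finset (Fin (r + 1) ⊕ Fin (r + 1))) :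
    pre (insert ed A) = pre A := by
  ext y; simp [mem_pre, emb_ne_ed]

theorem pre_erase_ec (A : Finset (Fin (r + 1) ⊕ Fin (r + 1))) :
    pre (A.erase ec) = pre A := by
  ext y; simp [mem_pre, emb_ne_ec]

theorem pre_erase_ed (A : Finset (Fin (r + 1) ⊕ Fin (r + 1))) :
    pre (A.erase ed) = pre A := by
  ext y; simp [mem_pre, emb_ne_ed]

/-- Sums over the large ground set. -/
theorem sum_split {M : Type*} [AddCommMonoid M] (g : Fin (r + 1) ⊕ Fin (r + 1) → M) :
    ∑ y, g y = ∑ x : Fin r ⊕ Fin r, g (emb x) + g ec + g ed := by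
  rw [Fintype.sum_sum_type, Fintype.sum_sum_type, Fin.sum_univ_castSucc, Fin.sum_univ_castSucc]
  simp only [emb, ec, ed, Sum.map_inl, Sum.map_inr]
  abel

theorem card_split (A : Finset (Fin (r + 1) ⊕ Fin (r + 1))) :
    A.card = (pre A).card + (if ec ∈ A then 1 else 0) + (if ed ∈ A then 1 else 0) := by
  have h1 : A.card = ∑ y, if y ∈ A then 1 else 0 := by simp
  have h2 : (pre A).card = ∑ x : Fin r ⊕ Fin r, if emb x ∈ A then 1 else 0 := by
    simp [pre]
  rw [h1, h2, sum_split]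

theorem sum_compl_split {M : Type*} [AddCommMonoid M] (C : Finset (Fin (r + 1) ⊕ Fin (r + 1)))
    (g : Fin (r + 1) ⊕ Fin (r + 1) → M) :
    ∑ y ∈ Cᶜ, g y = ∑ x ∈ (pre C)ᶜ, g (emb x) + (if ec ∈ C then 0 else g ec) +
      (if ed ∈ C then 0 else g ed) := by
  have h1 : ∑ y ∈ Cᶜ, g y = ∑ y, if y ∈ C then 0 else g y := by
    rw [← Finset.sum_filter_add_sum_filter_not univ (fun y => y ∈ C)]
    rw [Finset.sum_eq_zero (s := univ.filter fun y => y ∈ C), zero_add]
    · refine Finset.sum_congr ?_ ?_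
      · ext y; simp
      · intro y hy; simp at hy; simp [hy]
    · intro y hy; simp at hy; simp [hy]
  have h2 : ∑ x ∈ (pre C)ᶜ, g (emb x) = ∑ x : Fin r ⊕ Fin r, if emb x ∈ C then 0 else g (emb x) := by
    rw [← Finset.sum_filter_add_sum_filter_not univ (fun x : Fin r ⊕ Fin r => emb x ∈ C)]
    rw [Finset.sum_eq_zero (s := univ.filter fun x : Fin r ⊕ Fin r => emb x ∈ C), zero_add]
    · refine Finset.sum_congr ?_ ?_
      · ext y; simp [mem_pre]
      · intro y hy; simp at hy; simp [hy]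
    · intro y hy; simp at hy; simp [hy]
  rw [h1, h2, sum_split]

theorem lev_eq {n : ℕ} (A : Finset (Fin n ⊕ Fin n)) :
    lev A = ∑ j : Fin n, if Sum.inr j ∈ A then 1 else 0 := by
  unfold lev
  rw [Finset.card_eq_sum_ones, ← Finset.sum_filter]
  refine Finset.sum_congr ?_ (fun _ _ => rfl)
  ext j; simp

theorem lev_split (A : Finset (Fin (r + 1) ⊕ Fin (r + 1))) :
    lev A = lev (pre A) + (if ed ∈ A then 1 else 0) := by
  rw [lev_eq, lev_eq, Fin.sum_univ_castSucc]
  congr 1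
  refine Finset.sum_congr rfl fun j _ => ?_
  simp [mem_pre, emb]

end

section

variable {r : ℕ} {K : Type*} [Field K]

/-- The function with a singlet on the two additional elements. -/
def up1 (F : Finset (Fin r ⊕ Fin r) → K) (A : Finset (Fin (r + 1) ⊕ Fin (r + 1))) : K :=
  if ec ∈ A then (if ed ∈ A then 0 else F (pre A)) else (if ed ∈ A then - F (pre A) else 0)

theorem up1_h1 (F : Finset (Fin r ⊕ Fin r) → K)
    (h1 : ∀ C : Finset (Fin r ⊕ Fin r), C.card + 1 = r → ∑ a ∈ Cᶜ, F (insert a C) = 0)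
    (C : Finset (Fin (r + 1) ⊕ Fin (r + 1))) (hC : C.card + 1 = r + 1) :
    ∑ a ∈ Cᶜ, up1 F (insert a C) = 0 := by
  have hcd : (ed : Fin (r + 1) ⊕ Fin (r + 1)) ≠ ec := fun h => ec_ne_ed h.symm
  have hce : ∀ x : Fin r ⊕ Fin r, (ec : Fin (r + 1) ⊕ Fin (r + 1)) ≠ emb x :=
    fun x h => emb_ne_ec x h.symm
  have hde : ∀ x : Fin r ⊕ Fin r, (ed : Fin (r + 1) ⊕ Fin (r + 1)) ≠ emb x :=
    fun x h => emb_ne_ed x h.symm
  have hk := card_split C
  rw [sum_compl_split]
  by_cases hc : ec ∈ C <;> by_cases hd : ed ∈ C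
  · simp [up1, hc, hd]
  · simp only [hc, hd, if_true, if_false] at hk
    have := h1 (pre C) (by omega)
    simp [up1, hc, hd, hde, pre_insert_emb, this]
  · simp only [hc, hd, if_true, if_false] at hk
    have := h1 (pre C) (by omega)
    simp [up1, hc, hd, hce, pre_insert_emb, this]
  · simp [up1, hc, hd, hde, hce, hcd, ec_ne_ed, pre_insert_ec, pre_insert_ed]

theorem up1_h2 (F : Finset (Fin r ⊕ Fin r) → K)
    (h2 : ∀ A : Finset (Fin r ⊕ Fin r), A.card = r → F Aᶜ = (-1) ^ r * F A)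
    (A : Finset (Fin (r + 1) ⊕ Fin (r + 1))) (hA : A.card = r + 1) :
    up1 F Aᶜ = (-1) ^ (r + 1) * up1 F A := by
  have hk := card_split A
  by_cases hc : ec ∈ A <;> by_cases hd : ed ∈ A
  · simp [up1, hc, hd]
  · simp only [hc, hd, if_true, if_false] at hk
    have := h2 (pre A) (by omega)
    simp only [up1, mem_compl, hc, hd, not_true, not_false_iff, if_true, if_false, pre_compl, this]
    ring
  · simp only [hc, hd, if_true, if_false] at hk
    have := h2 (pre A) (by omega)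
    simp only [up1, mem_compl, hc, hd, not_true, not_false_iff, if_true, if_false, pre_compl, this]
    ring
  · simp [up1, hc, hd]

theorem up1_ne {F : Finset (Fin r ⊕ Fin r) → K} {A : Finset (Fin (r + 1) ⊕ Fin (r + 1))}
    (h : up1 F A ≠ 0) : F (pre A) ≠ 0 ∧ ((ec ∈ A ∧ ed ∉ A) ∨ (ec ∉ A ∧ ed ∈ A)) := by
  unfold up1 at h
  by_cases hc : ec ∈ A <;> by_cases hd : ed ∈ A
  · simp [hc, hd] at h
  · simp only [hc, hd, if_true, if_false] at h
    exact ⟨h, Or.inl ⟨hc, hd⟩⟩
  · simp only [hc, hd, if_true, if_false] at h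
    exact ⟨fun h0 => h (by rw [h0, neg_zero]), Or.inr ⟨hc, hd⟩⟩
  · simp [hc, hd] at h

theorem step_down {m : ℕ} (hr : r = 2 * m) {F : Finset (Fin r ⊕ Fin r) → K}
    {A B : Finset (Fin (r + 1) ⊕ Fin (r + 1))} (hA : up1 F A ≠ 0) (h : Step (up1 F) A B) :
    pre A = pre B ∨ Step F (pre A) (pre B) := by
  obtain ⟨⟨a, ha, b, hb, rfl⟩, hB, hl⟩ := h
  obtain ⟨-, hA2⟩ := up1_ne hA
  obtain ⟨hB1, hB2⟩ := up1_ne hB
  have hcd : (ed : Fin (r + 1) ⊕ Fin (r + 1)) ≠ ec := fun h => ec_ne_ed h.symm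
  have hce : ∀ x : Fin r ⊕ Fin r, (ec : Fin (r + 1) ⊕ Fin (r + 1)) ≠ emb x :=
    fun x h => emb_ne_ec x h.symm
  have hde : ∀ x : Fin r ⊕ Fin r, (ed : Fin (r + 1) ⊕ Fin (r + 1)) ≠ emb x :=
    fun x h => emb_ne_ed x h.symm
  rcases cases_emb a with rfl | rfl | ⟨x, rfl⟩
  · rcases cases_emb b with rfl | rfl | ⟨y, rfl⟩
    · exact absurd ha hb
    · left; rw [pre_insert_ed, pre_erase_ec]
    · exfalso
      rcases hA2 with ⟨h3, h4⟩ | ⟨h3, h4⟩
      · simp [hce, hde, hcd, h4] at hB2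
      · exact h3 ha
  · rcases cases_emb b with rfl | rfl | ⟨y, rfl⟩
    · left; rw [pre_insert_ec, pre_erase_ed]
    · exact absurd ha hb
    · exfalso
      rcases hA2 with ⟨h3, h4⟩ | ⟨h3, h4⟩
      · exact h4 ha
      · simp [hce, hde, ec_ne_ed, h3] at hB2
  · rcases cases_emb b with rfl | rfl | ⟨y, rfl⟩
    · exfalso
      rcases hA2 with ⟨h3, h4⟩ | ⟨h3, h4⟩
      · exact hb h3
      · simp [hce, hde, hcd, h4] at hB2
    · exfalso
      rcases hA2 with ⟨h3, h4⟩ | ⟨h3, h4⟩
      · simp [hce, hde, ec_ne_ed, h3] at hB2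
      · exact hb h4
    · right
      refine ⟨⟨x, mem_pre.2 ha, y, fun h => hb (mem_pre.1 h), ?_⟩, hB1, ?_⟩
      · rw [pre_insert_emb, pre_erase_emb]
      · rcases hl with hl | hl
        · left
          intro j hj
          have h5 : j.castSucc ∈ A.toRight := by
            simpa [mem_pre, emb] using hj
          simpa [mem_pre, emb] using hl h5
        · right
          have e1 := lev_split A
          have e2 := lev_split (insert (emb y) (A.erase (emb x)))
          have e3 : (ed ∈ insert (emb y) (A.erase (emb x))) ↔ ed ∈ A := by simp [hde]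
          rw [e1, e2] at hl
          unfold Mid at hl ⊢
          by_cases hd : ed ∈ A
          · simp only [e3, hd, if_true] at hl
            omega
          · simp only [e3, hd, if_false] at hl
            omega

end

/-- All ranks, rational values. -/
theorem path_rat {r : ℕ} (F : Finset (Fin r ⊕ Fin r) → ℚ)
    (h1 : ∀ C : Finset (Fin r ⊕ Fin r), C.card + 1 = r → ∑ a ∈ Cᶜ, F (insert a C) = 0)
    (h2 : ∀ A : Finset (Fin r ⊕ Fin r), A.card = r → F Aᶜ = (-1) ^ r * F A)
    (h3 : F (univ.map ⟨Sum.inl, Sum.inl_injective⟩) ≠ 0) :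
    Relation.ReflTransGen (Step F) (univ.map ⟨Sum.inl, Sum.inl_injective⟩)
      (univ.map ⟨Sum.inr, Sum.inr_injective⟩) := by
  rcases Nat.even_or_odd' r with ⟨m, hm | hm⟩
  · have hS : pre (univ.map ⟨Sum.inl, Sum.inl_injective⟩ : Finset (Fin (r + 1) ⊕ Fin (r + 1))) =
        univ.map ⟨Sum.inl, Sum.inl_injective⟩ := by
      ext x; rcases x with x | x <;> simp [mem_pre, emb]
    have hT : pre (univ.map ⟨Sum.inr, Sum.inr_injective⟩ : Finset (Fin (r + 1) ⊕ Fin (r + 1))) =
        univ.map ⟨Sum.inr, Sum.inr_injective⟩ := by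
      ext x; rcases x with x | x <;> simp [mem_pre, emb]
    have h4 : up1 F (univ.map ⟨Sum.inl, Sum.inl_injective⟩) ≠ 0 := by
      unfold up1
      rw [hS]
      simpa [ec, ed] using h3
    have key := path_odd (r := r + 1) (m := m) (by omega) (up1 F) (up1_h1 F h1) (up1_h2 F h2) h4
    have aux : ∀ B : Finset (Fin (r + 1) ⊕ Fin (r + 1)),
        Relation.ReflTransGen (Step (up1 F)) (univ.map ⟨Sum.inl, Sum.inl_injective⟩) B →
        up1 F B ≠ 0 ∧ Relation.ReflTransGen (Step F) (univ.map ⟨Sum.inl, Sum.inl_injective⟩)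
          (pre B) := by
      intro B hB
      induction hB with
      | refl => exact ⟨h4, by rw [hS]⟩
      | tail _ hstep ih =>
        refine ⟨hstep.2.1, ?_⟩
        rcases step_down hm ih.1 hstep with h | h
        · rw [← h]; exact ih.2
        · exact ih.2.tail h
    have := (aux _ key).2
    rwa [hT] at this
  · exact path_odd hm F h1 h2 h3

theorem path_all {r : ℕ} {K : Type*} [Field K] [CharZero K] (F : Finset (Fin r ⊕ Fin r) → K)
    (h1 : ∀ C : Finset (Fin r ⊕ Fin r), C.card + 1 = r → ∑ a ∈ Cᶜ, F (insert a C) = 0)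
    (h2 : ∀ A : Finset (Fin r ⊕ Fin r), A.card = r → F Aᶜ = (-1) ^ r * F A)
    (h3 : F (univ.map ⟨Sum.inl, Sum.inl_injective⟩) ≠ 0) :
    Relation.ReflTransGen (Step F) (univ.map ⟨Sum.inl, Sum.inl_injective⟩)
      (univ.map ⟨Sum.inr, Sum.inr_injective⟩) := by
  obtain ⟨φ, hφ⟩ : ∃ φ : Module.Dual ℚ K, φ (F (univ.map ⟨Sum.inl, Sum.inl_injective⟩)) ≠ 0 := by
    by_contra hcon
    exact h3 ((Module.forall_dual_apply_eq_zero_iff ℚ _).1
      (fun φ => by_contra fun h => hcon ⟨φ, h⟩))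
  have key := path_rat (fun A => φ (F A))
    (fun C hC => by rw [← map_sum, h1 C hC, map_zero])
    (fun A hA => by
      rw [h2 A hA]
      rcases neg_one_pow_eq_or K r with h | h
      · rcases Nat.even_or_odd r with h' | h'
        · rw [h'.neg_one_pow, h'.neg_one_pow, one_mul, one_mul]
        · rw [h'.neg_one_pow, h'.neg_one_pow, neg_one_mul, neg_one_mul, map_neg]
      · rcases Nat.even_or_odd r with h' | h'
        · rw [h'.neg_one_pow, h'.neg_one_pow, one_mul, one_mul]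
        · rw [h'.neg_one_pow, h'.neg_one_pow, neg_one_mul, neg_one_mul, map_neg])
    hφ
  have hmono : ∀ A B, Step (fun A => φ (F A)) A B → Step F A B := by
    rintro A B ⟨hx, hB, hl⟩
    exact ⟨hx, fun h0 => hB (by simp [h0]), hl⟩
  exact Relation.ReflTransGen.mono hmono _ _ key

end Pool.Agent.H64Swap
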