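import Pool.Agent.H64Swap.Defs

/-!
# Monotone swap theorem: the mirror lemma (package Q3, helper30)

`P A B` is the sum of `D X Y` over the `m`-sets `X ⊇ A`, `Y ⊇ B`. If `D` anticommutes with the
disjointness matrix then `((m + 1 - |A|) (-1)^|A| + (m + 1 - |B|) (-1)^|B|) P A B = 0` by
induction, and the factor is not zero.
-/

set_option autoImplicit false

open Finset

namespace Pool.Agent.H64Swap

/-- the `m`-sets -/
def mset (r m : ℕ) : Finset (Finset (Fin r)) := univ.filter fun X => X.card = m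

theorem mem_mset {r m : ℕ} {X : Finset (Fin r)} : X ∈ mset r m ↔ X.card = m := by
  simp [mset]

theorem sum_disj {r m : ℕ} (hr : r = 2 * m + 1) {X : Finset (Fin r)} (hX : X.card = m)
    (f : Finset (Fin r) → ℚ) :
    ∑ Z ∈ (mset r m).filter (fun Z => Disjoint Z X), f Z = ∑ i ∈ Xᶜ, f (Xᶜ.erase i) := by
  have hc : Xᶜ.card = m + 1 := by
    rw [card_compl, Fintype.card_fin, hX]
    omega
  have h1 : (mset r m).filter (fun Z => Disjoint Z X) = Xᶜ.image (fun i => Xᶜ.erase i) := by
    ext Z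
    rw [mem_filter, mem_mset, mem_image]
    constructor
    · rintro ⟨h1, h2⟩
      have h3 : Z ⊆ Xᶜ := by
        rw [subset_compl_iff_disjoint_right]
        exact h2
      have h4 : (Xᶜ \ Z).card = 1 := by
        rw [card_sdiff_of_subset h3, hc, h1]
        omega
      obtain ⟨i, hi⟩ := card_eq_one.1 h4
      have h5 : i ∈ Xᶜ \ Z := by rw [hi]; exact mem_singleton_self i
      refine ⟨i, (mem_sdiff.1 h5).1, ?_⟩
      rw [← sdiff_singleton_eq_erase, ← hi, Finset.sdiff_sdiff_eq_self h3]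
    · rintro ⟨i, hi, rfl⟩
      refine ⟨by rw [card_erase_of_mem hi, hc]; rfl, ?_⟩
      exact (disjoint_compl_left (a := X)).mono_left (erase_subset _ _)
  rw [h1, sum_image]
  intro a ha b hb hab
  exact erase_injOn Xᶜ ha hb hab

theorem count_disj {r m : ℕ} (hr : r = 2 * m + 1) {A Z : Finset (Fin r)} (hA : A.card ≤ m)
    (hZ : Z.card = m) :
    (((mset r m).filter (fun X => A ⊆ X ∧ Disjoint Z X)).card : ℚ) =
      if Disjoint A Z then (m : ℚ) + 1 - A.card else 0 := by
  have hc : Zᶜ.card = m + 1 := by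
    rw [card_compl, Fintype.card_fin, hZ]
    omega
  split_ifs with h
  · have h1 : (mset r m).filter (fun X => A ⊆ X ∧ Disjoint Z X) =
        (Zᶜ \ A).image (fun i => Zᶜ.erase i) := by
      ext X
      rw [mem_filter, mem_mset, mem_image]
      constructor
      · rintro ⟨h1, h2, h2'⟩
        have h3 : X ⊆ Zᶜ := by
          rw [subset_compl_iff_disjoint_right]
          exact h2'.symm
        have h4 : (Zᶜ \ X).card = 1 := by
          rw [card_sdiff_of_subset h3, hc, h1]
          omega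
        obtain ⟨i, hi⟩ := card_eq_one.1 h4
        have h5 : i ∈ Zᶜ \ X := by rw [hi]; exact mem_singleton_self i
        refine ⟨i, mem_sdiff.2 ⟨(mem_sdiff.1 h5).1, fun h6 => (mem_sdiff.1 h5).2 (h2 h6)⟩, ?_⟩
        rw [← sdiff_singleton_eq_erase, ← hi, Finset.sdiff_sdiff_eq_self h3]
      · rintro ⟨i, hi, rfl⟩
        rw [mem_sdiff] at hi
        refine ⟨by rw [card_erase_of_mem hi.1, hc]; rfl, ?_, ?_⟩
        · intro x hx
          refine mem_erase.2 ⟨fun h6 => hi.2 (h6 ▸ hx), ?_⟩
          exact mem_compl.2 fun h7 => (disjoint_left.1 h hx) h7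
        · exact (disjoint_compl_right (a := Z)).mono_right (erase_subset _ _)
    have h2 : A ⊆ Zᶜ := by
      rw [subset_compl_iff_disjoint_right]
      exact h
    rw [h1, card_image_of_injOn, card_sdiff_of_subset h2, hc, Nat.cast_sub (by omega)]
    · push_cast
      ring
    · intro a ha b hb hab
      exact erase_injOn Zᶜ (mem_coe.2 (mem_sdiff.1 (mem_coe.1 ha)).1)
        (mem_coe.2 (mem_sdiff.1 (mem_coe.1 hb)).1) hab
  · have h1 : (mset r m).filter (fun X => A ⊆ X ∧ Disjoint Z X) = ∅ := by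
      rw [filter_eq_empty_iff]
      rintro X - ⟨h2, h3⟩
      exact h (h3.symm.mono_left h2)
    rw [h1]
    simp

theorem incl_excl {r : ℕ} (A Z : Finset (Fin r)) :
    (if Disjoint A Z then (1 : ℚ) else 0) =
      ∑ A' ∈ A.powerset, (-1) ^ A'.card * (if A' ⊆ Z then (1 : ℚ) else 0) := by
  have h1 : ∑ A' ∈ A.powerset, (-1) ^ A'.card * (if A' ⊆ Z then (1 : ℚ) else 0) =
      ∑ A' ∈ (A ∩ Z).powerset, (-1 : ℚ) ^ A'.card := by
    have h2 : (A ∩ Z).powerset = A.powerset.filter (fun A' => A' ⊆ Z) := by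
      ext B
      rw [mem_powerset, mem_filter, mem_powerset, subset_inter_iff]
    rw [h2, sum_filter]
    refine sum_congr rfl fun B _ => ?_
    split_ifs <;> simp
  have h3 := sum_powerset_neg_one_pow_card (x := A ∩ Z)
  have h4 : ∑ A' ∈ (A ∩ Z).powerset, (-1 : ℚ) ^ A'.card = if A ∩ Z = ∅ then 1 else 0 := by
    exact_mod_cast h3
  rw [h1, h4]
  simp only [disjoint_iff_inter_eq_empty]

theorem sum_sup {r m : ℕ} (hr : r = 2 * m + 1) {A : Finset (Fin r)} (hA : A.card ≤ m)
    (a : Finset (Fin r) → ℚ) :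
    ∑ X ∈ (mset r m).filter (fun X => A ⊆ X),
        ∑ Z ∈ (mset r m).filter (fun Z => Disjoint Z X), a Z =
      ((m : ℚ) + 1 - A.card) * ∑ A' ∈ A.powerset, (-1) ^ A'.card *
        ∑ Z ∈ (mset r m).filter (fun Z => A' ⊆ Z), a Z := by
  have h1 : ∑ X ∈ (mset r m).filter (fun X => A ⊆ X),
        ∑ Z ∈ (mset r m).filter (fun Z => Disjoint Z X), a Z =
      ∑ Z ∈ mset r m, (if Disjoint A Z then (m : ℚ) + 1 - A.card else 0) * a Z := by
    simp only [sum_filter]
    have h2 : ∀ X ∈ mset r m, (if A ⊆ X then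
        ∑ Z ∈ mset r m, if Disjoint Z X then a Z else 0 else 0) =
        ∑ Z ∈ mset r m, if A ⊆ X ∧ Disjoint Z X then a Z else 0 := by
      intro X _
      by_cases h : A ⊆ X
      · simp [h]
      · simp [h]
    rw [sum_congr rfl h2, sum_comm]
    refine sum_congr rfl fun Z hZ => ?_
    rw [← count_disj hr hA (mem_mset.1 hZ), ← sum_filter, sum_const, nsmul_eq_mul]
  rw [h1, mul_sum]
  have h3 : ∀ A' ∈ A.powerset, ((m : ℚ) + 1 - A.card) * ((-1) ^ A'.card *
      ∑ Z ∈ (mset r m).filter (fun Z => A' ⊆ Z), a Z) = ∑ Z ∈ mset r m,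
        ((m : ℚ) + 1 - A.card) * ((-1) ^ A'.card * (if A' ⊆ Z then (1 : ℚ) else 0)) * a Z := by
    intro A' _
    rw [sum_filter, mul_sum, mul_sum]
    refine sum_congr rfl fun Z _ => ?_
    split_ifs <;> ring
  rw [sum_congr rfl h3, sum_comm]
  refine sum_congr rfl fun Z _ => ?_
  rw [← sum_mul, ← mul_sum, ← incl_excl A Z]
  split_ifs <;> ring

theorem anti_zero {r m : ℕ} (hr : r = 2 * m + 1) {D : Finset (Fin r) → Finset (Fin r) → ℚ}
    (hD : ∀ X ∈ mset r m, ∀ Y ∈ mset r m,
      ∑ Z ∈ (mset r m).filter (fun Z => Disjoint Z X), D Z Y =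
        -∑ Z ∈ (mset r m).filter (fun Z => Disjoint Z Y), D X Z) :
    ∀ (n : ℕ) (A B : Finset (Fin r)), A.card + B.card = n → A.card ≤ m → B.card ≤ m →
      ∑ X ∈ (mset r m).filter (fun X => A ⊆ X), ∑ Y ∈ (mset r m).filter (fun Y => B ⊆ Y),
        D X Y = 0 := by
  intro n
  induction n using Nat.strong_induction_on with
  | _ n ih =>
    intro A B hn hA hB
    have h1 : ∑ X ∈ (mset r m).filter (fun X => A ⊆ X), ∑ Y ∈ (mset r m).filter (fun Y => B ⊆ Y),
        ∑ Z ∈ (mset r m).filter (fun Z => Disjoint Z X), D Z Y =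
        -∑ X ∈ (mset r m).filter (fun X => A ⊆ X), ∑ Y ∈ (mset r m).filter (fun Y => B ⊆ Y),
          ∑ Z ∈ (mset r m).filter (fun Z => Disjoint Z Y), D X Z := by
      rw [← sum_neg_distrib]
      refine sum_congr rfl fun X hX => ?_
      rw [← sum_neg_distrib]
      exact sum_congr rfl fun Y hY => hD X (mem_filter.1 hX).1 Y (mem_filter.1 hY).1
    have h2 : ∑ X ∈ (mset r m).filter (fun X => A ⊆ X), ∑ Y ∈ (mset r m).filter (fun Y => B ⊆ Y),
        ∑ Z ∈ (mset r m).filter (fun Z => Disjoint Z X), D Z Y =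
        ((m : ℚ) + 1 - A.card) * ((-1) ^ A.card *
          ∑ X ∈ (mset r m).filter (fun X => A ⊆ X), ∑ Y ∈ (mset r m).filter (fun Y => B ⊆ Y),
            D X Y) := by
      have h3 : ∀ X ∈ (mset r m).filter (fun X => A ⊆ X),
          ∑ Y ∈ (mset r m).filter (fun Y => B ⊆ Y),
            ∑ Z ∈ (mset r m).filter (fun Z => Disjoint Z X), D Z Y =
          ∑ Z ∈ (mset r m).filter (fun Z => Disjoint Z X),
            ∑ Y ∈ (mset r m).filter (fun Y => B ⊆ Y), D Z Y := fun X _ => sum_comm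
      rw [sum_congr rfl h3, sum_sup hr hA]
      congr 1
      refine sum_eq_single_of_mem A (mem_powerset_self A) fun A' hA' hne => ?_
      rw [mem_powerset] at hA'
      have h4 : A'.card < A.card := card_lt_card (hA'.ssubset_of_ne hne)
      rw [ih (A'.card + B.card) (by omega) A' B rfl (by omega) hB, mul_zero]
    have h5 : ∑ X ∈ (mset r m).filter (fun X => A ⊆ X), ∑ Y ∈ (mset r m).filter (fun Y => B ⊆ Y),
          ∑ Z ∈ (mset r m).filter (fun Z => Disjoint Z Y), D X Z =
        ((m : ℚ) + 1 - B.card) * ((-1) ^ B.card *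
          ∑ X ∈ (mset r m).filter (fun X => A ⊆ X), ∑ Y ∈ (mset r m).filter (fun Y => B ⊆ Y),
            D X Y) := by
      rw [sum_comm]
      have h3 : ∀ Y ∈ (mset r m).filter (fun Y => B ⊆ Y),
          ∑ X ∈ (mset r m).filter (fun X => A ⊆ X),
            ∑ Z ∈ (mset r m).filter (fun Z => Disjoint Z Y), D X Z =
          ∑ Z ∈ (mset r m).filter (fun Z => Disjoint Z Y),
            ∑ X ∈ (mset r m).filter (fun X => A ⊆ X), D X Z := fun Y _ => sum_comm
      rw [sum_congr rfl h3, sum_sup hr hB]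
      congr 1
      rw [sum_eq_single_of_mem B (mem_powerset_self B) fun B' hB' hne => ?_, sum_comm]
      rw [mem_powerset] at hB'
      have h4 : B'.card < B.card := card_lt_card (hB'.ssubset_of_ne hne)
      rw [sum_comm, ih (A.card + B'.card) (by omega) A B' rfl hA (by omega), mul_zero]
    rw [h2, h5] at h1
    have hx : (0 : ℚ) < (m : ℚ) + 1 - A.card := by
      have : (A.card : ℚ) ≤ m := by exact_mod_cast hA
      linarith
    have hy : (0 : ℚ) < (m : ℚ) + 1 - B.card := by
      have : (B.card : ℚ) ≤ m := by exact_mod_cast hB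
      linarith
    generalize ∑ X ∈ (mset r m).filter (fun X => A ⊆ X),
      ∑ Y ∈ (mset r m).filter (fun Y => B ⊆ Y), D X Y = p at h1 ⊢
    have hc : ((m : ℚ) + 1 - A.card) * (-1) ^ A.card + ((m : ℚ) + 1 - B.card) * (-1) ^ B.card ≠ 0 := by
      rcases neg_one_pow_eq_or ℚ A.card with ha | ha <;>
        rcases neg_one_pow_eq_or ℚ B.card with hb | hb
      · rw [ha, hb]
        intro h
        linarith
      · rw [ha, hb]
        intro h
        have h6 : A.card = B.card := by
          have : (A.card : ℚ) = B.card := by linarith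
          exact_mod_cast this
        rw [h6, hb] at ha
        norm_num at ha
      · rw [ha, hb]
        intro h
        have h6 : A.card = B.card := by
          have : (A.card : ℚ) = B.card := by linarith
          exact_mod_cast this
        rw [h6, hb] at ha
        norm_num at ha
      · rw [ha, hb]
        intro h
        linarith
    have h7 : (((m : ℚ) + 1 - A.card) * (-1) ^ A.card +
        ((m : ℚ) + 1 - B.card) * (-1) ^ B.card) * p = 0 := by
      linear_combination h1
    exact (mul_eq_zero.1 h7).resolve_left hc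

theorem mirror {r m : ℕ} (hr : r = 2 * m + 1) (g : Finset (Fin r) → Finset (Fin r) → ℚ)
    (hs : ∀ I J, I.card = m + 1 → J.card = m →
      ∑ i ∈ I, g (I.erase i) J = ∑ j ∈ Jᶜ, g I (insert j J))
    (ht : ∀ I J, I.card = m → J.card = m + 1 →
      ∑ j ∈ J, g I (J.erase j) = ∑ i ∈ Iᶜ, g (insert i I) J) :
    ∀ I J, I.card = m → J.card = m → g Iᶜ Jᶜ = g I J := by
  have hc : ∀ X : Finset (Fin r), X.card = m → Xᶜ.card = m + 1 := by
    intro X hX
    rw [card_compl, Fintype.card_fin, hX]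
    omega
  have hins : ∀ (X : Finset (Fin r)) (i : Fin r), insert i X = (Xᶜ.erase i)ᶜ := by
    intro X i
    ext x
    by_cases h : x = i <;> simp [h]
  have h1 : ∀ X ∈ mset r m, ∀ Y ∈ mset r m,
      ∑ Z ∈ (mset r m).filter (fun Z => Disjoint Z X), g Z Y =
        ∑ Z ∈ (mset r m).filter (fun Z => Disjoint Z Y), g Xᶜ Zᶜ := by
    intro X hX Y hY
    rw [mem_mset] at hX hY
    rw [sum_disj hr hX (fun Z => g Z Y), sum_disj hr hY (fun Z => g Xᶜ Zᶜ), hs _ _ (hc X hX) hY]
    exact sum_congr rfl fun j _ => by rw [hins Y j]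
  have h2 : ∀ X ∈ mset r m, ∀ Y ∈ mset r m,
      ∑ Z ∈ (mset r m).filter (fun Z => Disjoint Z Y), g X Z =
        ∑ Z ∈ (mset r m).filter (fun Z => Disjoint Z X), g Zᶜ Yᶜ := by
    intro X hX Y hY
    rw [mem_mset] at hX hY
    rw [sum_disj hr hY (fun Z => g X Z), sum_disj hr hX (fun Z => g Zᶜ Yᶜ), ht _ _ hX (hc Y hY)]
    exact sum_congr rfl fun j _ => by rw [hins X j]
  have h3 := anti_zero hr (D := fun X Y => g Xᶜ Yᶜ - g X Y) (fun X hX Y hY => by
    simp only [sum_sub_distrib]
    rw [← h2 X hX Y hY, h1 X hX Y hY]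
    ring)
  intro I J hI hJ
  have h4 := h3 _ I J rfl hI.le hJ.le
  have h5 : ∀ A : Finset (Fin r), A.card = m → (mset r m).filter (fun X => A ⊆ X) = {A} := by
    intro A hA
    ext X
    rw [mem_filter, mem_mset, mem_singleton]
    constructor
    · rintro ⟨h6, h7⟩
      exact (eq_of_subset_of_card_le h7 (by omega)).symm
    · rintro rfl
      exact ⟨hA, subset_rfl⟩
  rw [h5 I hI, h5 J hJ, sum_singleton, sum_singleton] at h4
  exact sub_eq_zero.1 h4

end Pool.Agent.H64Swap
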