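import Pool.Agent.H64Swap.Energy
import Pool.Agent.H64Swap.Mirror

/-!
# The middle (helper64)
-/

set_option autoImplicit false

open Finset

namespace Pool.Agent.H64Swap

theorem exists_mirror {r m : ℕ} (hr : r = 2 * m + 1) {w : Finset (Fin r) → Finset (Fin r) → ℚ}
    (hw : Rel w) {R : Finset (Fin r) → Finset (Fin r) → Prop} (hR : Closed w m R)
    (h0 : R ∅ ∅) : ∃ I J, R I J ∧ R Iᶜ Jᶜ := by
  obtain ⟨I, J, hI, hJ, h⟩ := reach hr hw hR h0
  refine ⟨I, J, h, ?_⟩
  have key := mirror hr (cut w R) ?_ ?_ I J hI hJ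
  · apply of_cut_ne (w := w)
    rw [key, cut_pos h]
    exact hR.nz I J h
  · intro I J hI hJ
    have hm := hw.rs I J (by omega)
    by_cases h1 : ∃ i ∈ I, R (I.erase i) J
    · obtain ⟨a, b⟩ := lowS_full hR h1
      rw [a, b, hm]
    · by_cases h2 : ∃ j ∈ Jᶜ, R I (insert j J)
      · obtain ⟨j, hj, hRj⟩ := h2
        rw [mem_compl] at hj
        rw [uppS_full hR (by omega) (by omega) ⟨j, by simpa using hj, hRj⟩, ← hm]
        refine Finset.sum_congr rfl fun i hi => cut_eq fun hne => ?_
        have := hR.down I (insert j J) i j hRj hI hi (mem_insert_self j J)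
        rw [erase_insert hj] at this
        exact this hne
      · rw [lowS_none h1, uppS_none h2]
  · intro I J hI hJ
    have hm := hw.rt I J (by omega)
    by_cases h1 : ∃ j ∈ J, R I (J.erase j)
    · obtain ⟨a, b⟩ := lowT_full hR (by omega) (by omega) h1
      rw [a, b, hm]
    · by_cases h2 : ∃ i ∈ Iᶜ, R (insert i I) J
      · obtain ⟨i, hi, hRi⟩ := h2
        rw [mem_compl] at hi
        rw [uppT_full hR ⟨i, by simpa using hi, hRi⟩, ← hm]
        refine Finset.sum_congr rfl fun j hj => cut_eq fun hne => ?_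
        have := hR.down (insert i I) J i j hRi (by rw [card_insert_of_notMem hi, hI])
          (mem_insert_self i I) hj
        rw [erase_insert hi] at this
        exact this hne
      · rw [lowT_none h1, uppT_none h2]

end Pool.Agent.H64Swap
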