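import Pool.Agent.H64Swap.Main

/-!
# Monotone swap theorem: the path in odd rank over the rationals (Q5)

`F` is a harmonic function on the subsets of `Fin r ⊕ Fin r`.
-/

set_option autoImplicit false

open Finset

namespace Pool.Agent.H64Swap

/-- The level: number of elements of the second half. -/
def lev {r : ℕ} (A : Finset (Fin r ⊕ Fin r)) : ℕ := A.toRight.card

/-- An exchange, `a` out and `b` in. -/
def Exch {r : ℕ} (A B : Finset (Fin r ⊕ Fin r)) : Prop :=
  ∃ a ∈ A, ∃ b ∉ A, B = insert b (A.erase a)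

/-- The level `l` is near the middle: `|2 l - r| ≤ 2`. -/
def Mid (r l : ℕ) : Prop := r ≤ 2 * l + 2 ∧ 2 * l ≤ r + 2

/-- The allowed steps: the part in the second half grows as a set, except near the middle. -/
def Step {r : ℕ} {K : Type*} [Zero K] (F : Finset (Fin r ⊕ Fin r) → K)
    (A B : Finset (Fin r ⊕ Fin r)) : Prop :=
  Exch A B ∧ F B ≠ 0 ∧ (A.toRight ⊆ B.toRight ∨ (Mid r (lev A) ∧ Mid r (lev B)))

/-! ### the sets -/

/-- `(S - I) ∪ J` -/
private def st {r : ℕ} (I J : Finset (Fin r)) : Finset (Fin r ⊕ Fin r) := Iᶜ.disjSum J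

private theorem inl_mem_st {r : ℕ} {I J : Finset (Fin r)} {i : Fin r} :
    Sum.inl i ∈ st I J ↔ i ∉ I := by simp [st]

private theorem inr_mem_st {r : ℕ} {I J : Finset (Fin r)} {j : Fin r} :
    Sum.inr j ∈ st I J ↔ j ∈ J := by simp [st]

private theorem card_st {r : ℕ} (I J : Finset (Fin r)) : (st I J).card = (r - I.card) + J.card := by
  rw [st, card_disjSum, card_compl, Fintype.card_fin]

private theorem right_st {r : ℕ} (I J : Finset (Fin r)) : (st I J).toRight = J := by
  simp [st]

private theorem lev_st {r : ℕ} (I J : Finset (Fin r)) : lev (st I J) = J.card := by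
  simp [lev, st]

private theorem st_compl {r : ℕ} (I J : Finset (Fin r)) : st Iᶜ Jᶜ = (st I J)ᶜ := by
  ext x
  rcases x with x | x
  · rw [mem_compl, inl_mem_st, inl_mem_st, mem_compl]
  · rw [mem_compl, inr_mem_st, inr_mem_st, mem_compl]

private theorem st_bot {r : ℕ} :
    st (∅ : Finset (Fin r)) ∅ = univ.map ⟨Sum.inl, Sum.inl_injective⟩ := by
  ext x
  rcases x with x | x
  · simp [inl_mem_st]
  · simp [inr_mem_st]

private theorem st_top {r : ℕ} :
    (univ.map ⟨Sum.inl, Sum.inl_injective⟩ : Finset (Fin r ⊕ Fin r))ᶜ =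
      univ.map ⟨Sum.inr, Sum.inr_injective⟩ := by
  ext x
  rcases x with x | x <;> simp

private theorem st_insl {r : ℕ} {I J : Finset (Fin r)} {i : Fin r} (_ : i ∈ I) :
    insert (Sum.inl i) (st I J) = st (I.erase i) J := by
  ext x
  rcases x with x | x
  · rw [mem_insert, inl_mem_st, inl_mem_st, mem_erase, Sum.inl.injEq]
    tauto
  · rw [mem_insert, inr_mem_st, inr_mem_st]
    simp

private theorem st_insr {r : ℕ} {I J : Finset (Fin r)} {j : Fin r} :
    insert (Sum.inr j) (st I J) = st I (insert j J) := by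
  ext x
  rcases x with x | x
  · rw [mem_insert, inl_mem_st, inl_mem_st]
    simp
  · rw [mem_insert, inr_mem_st, inr_mem_st, mem_insert, Sum.inr.injEq]

private theorem st_up {r : ℕ} {I J : Finset (Fin r)} {i j : Fin r} :
    st (insert i I) (insert j J) = insert (Sum.inr j) ((st I J).erase (Sum.inl i)) := by
  ext x
  rcases x with x | x
  · rw [mem_insert, inl_mem_st, mem_erase, inl_mem_st, mem_insert]
    simp
  · rw [mem_insert, inr_mem_st, mem_erase, inr_mem_st, mem_insert]
    simp

private theorem st_hs {r : ℕ} {I J : Finset (Fin r)} {i i' : Fin r} (hi' : i' ∈ I) (hi : i ∉ I) :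
    st (insert i (I.erase i')) J = insert (Sum.inl i') ((st I J).erase (Sum.inl i)) := by
  have hne : i' ≠ i := fun h => hi (h ▸ hi')
  ext x
  rcases x with x | x
  · simp only [mem_insert, inl_mem_st, mem_erase, Sum.inl.injEq, ne_eq]
    by_cases h1 : x = i' <;> by_cases h2 : x = i <;> simp_all
  · rw [mem_insert, inr_mem_st, mem_erase, inr_mem_st]
    simp

private theorem st_ht {r : ℕ} {I J : Finset (Fin r)} {j j' : Fin r} :
    st I (insert j (J.erase j')) = insert (Sum.inr j) ((st I J).erase (Sum.inr j')) := by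
  ext x
  rcases x with x | x
  · rw [mem_insert, inl_mem_st, mem_erase, inl_mem_st]
    simp
  · rw [mem_insert, inr_mem_st, mem_erase, inr_mem_st, mem_insert, mem_erase]
    simp

private theorem st_down {r : ℕ} {I J : Finset (Fin r)} {i j : Fin r} :
    st (I.erase i) (J.erase j) = insert (Sum.inl i) ((st I J).erase (Sum.inr j)) := by
  ext x
  rcases x with x | x
  · simp only [mem_insert, inl_mem_st, mem_erase, Sum.inl.injEq, ne_eq, reduceCtorEq,
      not_false_eq_true, true_and]
    tauto
  · simp only [mem_insert, inr_mem_st, mem_erase, Sum.inr.injEq, ne_eq, reduceCtorEq, false_or]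

/-! ### exchanges and complements -/

private theorem card_exch {r : ℕ} {A B : Finset (Fin r ⊕ Fin r)} (h : Exch A B) :
    B.card = A.card := by
  obtain ⟨a, ha, b, hb, rfl⟩ := h
  rw [card_insert_of_notMem fun h => hb (mem_of_mem_erase h), card_erase_of_mem ha]
  have := card_pos.2 ⟨a, ha⟩
  omega

private theorem exch_compl {r : ℕ} {A B : Finset (Fin r ⊕ Fin r)} (h : Exch A B) :
    Exch Bᶜ Aᶜ := by
  obtain ⟨a, ha, b, hb, rfl⟩ := h
  have hab : a ≠ b := fun h => hb (h ▸ ha)
  refine ⟨a, ?_, b, ?_, ?_⟩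
  · simp [hab]
  · simp
  · ext x
    simp only [mem_compl, mem_insert, mem_erase]
    by_cases h1 : x = a
    · subst h1
      simp [ha, hab]
    · by_cases h2 : x = b
      · subst h2
        simp [hb]
      · simp [h1, h2]

private theorem lev_compl {r : ℕ} (A : Finset (Fin r ⊕ Fin r)) : lev Aᶜ + lev A = r := by
  have h : (Aᶜ).toRight = A.toRightᶜ := by
    ext x
    simp
  rw [lev, lev, h, card_compl, Fintype.card_fin]
  have := card_le_univ A.toRight
  rw [Fintype.card_fin] at this
  omega

/-- the complement of a path, reversed -/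
private theorem path_rev {r : ℕ} {K : Type*} [Field K] {F : Finset (Fin r ⊕ Fin r) → K}
    (h2 : ∀ A : Finset (Fin r ⊕ Fin r), A.card = r → F Aᶜ = (-1) ^ r * F A)
    {S A : Finset (Fin r ⊕ Fin r)} (hS : S.card = r) (hF : F S ≠ 0)
    (h : Relation.ReflTransGen (Step F) S A) :
    A.card = r ∧ F A ≠ 0 ∧ Relation.ReflTransGen (Step F) Aᶜ Sᶜ := by
  induction h with
  | refl => exact ⟨hS, hF, .refl⟩
  | @tail A B _ hAB ih =>
    obtain ⟨h3, h4, h5⟩ := ih
    obtain ⟨h6, h7, h8⟩ := hAB
    refine ⟨(card_exch h6).trans h3, h7, .head ⟨exch_compl h6, ?_, ?_⟩ h5⟩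
    · rw [h2 A h3]
      exact mul_ne_zero (pow_ne_zero _ (neg_ne_zero.2 one_ne_zero)) h4
    · rcases h8 with h8 | ⟨h9, h10⟩
      · left
        intro x hx
        rw [mem_toRight, mem_compl] at hx ⊢
        exact fun h => hx (mem_toRight.1 (h8 (mem_toRight.2 h)))
      · right
        have e1 := lev_compl A
        have e2 := lev_compl B
        unfold Mid at *
        omega

/-! ### the function -/

/-- `(-1) ^ |I|` times the value at `(S - I) ∪ J` -/
private def wF {r : ℕ} (F : Finset (Fin r ⊕ Fin r) → ℚ) (I J : Finset (Fin r)) : ℚ :=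
  if I.card = J.card then (-1) ^ I.card * F (st I J) else 0

private theorem wF_ne {r : ℕ} {F : Finset (Fin r ⊕ Fin r) → ℚ} {I J : Finset (Fin r)}
    (h : wF F I J ≠ 0) : I.card = J.card ∧ F (st I J) ≠ 0 := by
  rw [wF] at h
  split_ifs at h with h1
  · exact ⟨h1, right_ne_zero_of_mul h⟩
  · exact absurd rfl h

private theorem wF_rel {r : ℕ} (F : Finset (Fin r ⊕ Fin r) → ℚ)
    (h1 : ∀ C : Finset (Fin r ⊕ Fin r), C.card + 1 = r → ∑ a ∈ Cᶜ, F (insert a C) = 0)
    (h2 : ∀ A : Finset (Fin r ⊕ Fin r), A.card = r → F Aᶜ = (-1) ^ r * F A) : Rel (wF F) := by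
  have hle : ∀ I : Finset (Fin r), I.card ≤ r := fun I => by
    have := card_le_univ I
    rwa [Fintype.card_fin] at this
  have hsym : ∀ I J, wF F Iᶜ Jᶜ = wF F I J := by
    intro I J
    have e1 := hle I
    have e2 := hle J
    rw [wF, wF]
    by_cases h : I.card = J.card
    · rw [if_pos h, if_pos (by rw [card_compl, card_compl, h]), st_compl,
        h2 _ (by rw [card_st]; omega), card_compl, Fintype.card_fin, ← mul_assoc, ← pow_add]
      congr 1
      have : r - I.card + r = I.card + 2 * (r - I.card) := by omega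
      rw [this, pow_add, pow_mul]
      norm_num
    · rw [if_neg h, if_neg]
      rw [card_compl, card_compl, Fintype.card_fin]
      omega
  have hrs : ∀ I J : Finset (Fin r), I.card = J.card + 1 →
      ∑ i ∈ I, wF F (I.erase i) J = ∑ j ∈ Jᶜ, wF F I (insert j J) := by
    intro I J h
    have e1 := hle I
    have h3 := h1 (st I J) (by rw [card_st]; omega)
    have h4 : (st I J)ᶜ = I.disjSum Jᶜ := by
      ext x
      rcases x with x | x
      · rw [mem_compl, inl_mem_st]; simp
      · rw [mem_compl, inr_mem_st]; simp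
    rw [h4, sum_disjSum] at h3
    have h5 : ∀ i ∈ I, F (insert (Sum.inl i) (st I J)) = (-1) ^ J.card * wF F (I.erase i) J := by
      intro i hi
      have : (I.erase i).card = J.card := by rw [card_erase_of_mem hi]; omega
      rw [st_insl hi, wF, if_pos this, this, ← mul_assoc, ← pow_add, ← two_mul, pow_mul]
      norm_num
    have h6 : ∀ j ∈ Jᶜ, F (insert (Sum.inr j) (st I J)) =
        -((-1) ^ J.card * wF F I (insert j J)) := by
      intro j hj
      have : I.card = (insert j J).card := by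
        rw [card_insert_of_notMem (mem_compl.1 hj)]; omega
      rw [st_insr, wF, if_pos this, h, ← mul_assoc, ← pow_add]
      have e : J.card + (J.card + 1) = 2 * J.card + 1 := by ring
      rw [e, pow_succ, pow_mul]
      norm_num
    rw [sum_congr rfl h5, sum_congr rfl h6, sum_neg_distrib, ← mul_sum, ← mul_sum,
      ← sub_eq_add_neg, ← mul_sub] at h3
    have h7 := (mul_eq_zero.1 h3).resolve_left (pow_ne_zero _ (by norm_num))
    exact sub_eq_zero.1 h7
  refine ⟨fun I J h => if_neg h, hrs, fun I J h => ?_, hsym⟩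
  have e1 := hle I
  have e2 := hle J
  have h3 := hrs Iᶜ Jᶜ (by rw [card_compl, card_compl, Fintype.card_fin]; omega)
  rw [compl_compl] at h3
  have h4 : ∀ i ∈ Iᶜ, wF F (Iᶜ.erase i) Jᶜ = wF F (insert i I) J := by
    intro i _
    rw [← hsym (insert i I) J, compl_insert]
  have h5 : ∀ j ∈ J, wF F Iᶜ (insert j Jᶜ) = wF F I (J.erase j) := by
    intro j _
    rw [← hsym I (J.erase j), compl_erase]
  rw [sum_congr rfl h4, sum_congr rfl h5] at h3
  exact h3.symm

/-- odd rank, rational values -/
theorem path_odd {r m : ℕ} (hr : r = 2 * m + 1) (F : Finset (Fin r ⊕ Fin r) → ℚ)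
    (h1 : ∀ C : Finset (Fin r ⊕ Fin r), C.card + 1 = r → ∑ a ∈ Cᶜ, F (insert a C) = 0)
    (h2 : ∀ A : Finset (Fin r ⊕ Fin r), A.card = r → F Aᶜ = (-1) ^ r * F A)
    (h3 : F (univ.map ⟨Sum.inl, Sum.inl_injective⟩) ≠ 0) :
    Relation.ReflTransGen (Step F) (univ.map ⟨Sum.inl, Sum.inl_injective⟩)
      (univ.map ⟨Sum.inr, Sum.inr_injective⟩) := by
  rw [← st_top, ← st_bot] at *
  have hc : (st (∅ : Finset (Fin r)) ∅).card = r := by rw [card_st]; simp
  obtain ⟨I, J, ⟨-, hA⟩, -, hB⟩ := exists_mirror hr (wF_rel F h1 h2)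
    (R := fun I J => wF F I J ≠ 0 ∧ Relation.ReflTransGen (Step F) (st ∅ ∅) (st I J))
    { nz := fun I J h => h.1
      up := fun I J i j h hi hj hw => by
        refine ⟨hw, h.2.tail ⟨⟨Sum.inl i, inl_mem_st.2 hi, Sum.inr j, ?_, st_up⟩,
          (wF_ne hw).2, Or.inl ?_⟩⟩
        · rwa [inr_mem_st]
        · rw [right_st, right_st]
          exact subset_insert _ _
      hs := fun I J i i' h hi' hi hw => by
        refine ⟨hw, h.2.tail ⟨⟨Sum.inl i, inl_mem_st.2 hi, Sum.inl i', ?_, st_hs hi' hi⟩,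
          (wF_ne hw).2, Or.inl ?_⟩⟩
        · rw [inl_mem_st]
          exact fun h => h hi'
        · rw [right_st, right_st]
      ht := fun I J j j' h hI1 hI2 hj' hj hw => by
        have e1 := (wF_ne h.1).1
        have e2 := card_pos.2 ⟨j', hj'⟩
        refine ⟨hw, h.2.tail ⟨⟨Sum.inr j', inr_mem_st.2 hj', Sum.inr j, ?_, st_ht⟩,
          (wF_ne hw).2, Or.inr ?_⟩⟩
        · rwa [inr_mem_st]
        · rw [lev_st, lev_st, card_insert_of_notMem fun h => hj (mem_of_mem_erase h),
            card_erase_of_mem hj', Mid, Mid]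
          omega
      down := fun I J i j h hI hi hj hw => by
        have e1 := (wF_ne h.1).1
        refine ⟨hw, h.2.tail ⟨⟨Sum.inr j, inr_mem_st.2 hj, Sum.inl i, ?_, st_down⟩,
          (wF_ne hw).2, Or.inr ?_⟩⟩
        · rw [inl_mem_st]
          exact fun h => h hi
        · rw [lev_st, lev_st, card_erase_of_mem hj, Mid, Mid]
          omega }
    ⟨by
      rw [wF, if_pos rfl]
      simpa using h3, .refl⟩
  rw [st_compl] at hB
  exact hB.trans (path_rev h2 hc h3 hA).2.2

end Pool.Agent.H64Swap
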